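import Pool.Agent.Helper4.HZ.Goals

/-!
# HZ, packet CRD: the order of `PSL₂(p)`
-/

namespace Pool.Agent.Helper87.HZ

open Pool.Agent.Helper4.HZ
open Matrix

variable (p : ℕ) [Fact p.Prime]

theorem card_GL2 : Nat.card (GL (Fin 2) (ZMod p)) = (p ^ 2 - 1) * (p ^ 2 - p) := by
  have h := Matrix.card_GL_field (𝔽 := ZMod p) 2
  rw [Fin.prod_univ_two] at h
  simpa [Nat.card_eq_fintype_card, ZMod.card] using h

/-- `SL₂` is the kernel of the determinant -/
noncomputable def slEquiv : SpecialLinearGroup (Fin 2) (ZMod p) ≃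
    (GeneralLinearGroup.det (n := Fin 2) (R := ZMod p)).ker where
  toFun A := ⟨SpecialLinearGroup.toGL A, by
    rw [MonoidHom.mem_ker]
    apply Units.ext
    simp⟩
  invFun B := ⟨(B : GL (Fin 2) (ZMod p)), by
    have h := MonoidHom.mem_ker.1 B.2
    have h2 := congrArg Units.val h
    simpa using h2⟩
  left_inv A := by
    apply Subtype.ext
    rfl
  right_inv B := by
    apply Subtype.ext
    apply Units.ext
    rfl

theorem det_surj : Function.Surjective (GeneralLinearGroup.det (n := Fin 2) (R := ZMod p)) := by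
  intro u
  refine ⟨GeneralLinearGroup.mkOfDetNeZero !![(u : ZMod p), 0; 0, 1] (by simp), ?_⟩
  apply Units.ext
  simp [GeneralLinearGroup.mkOfDetNeZero]

theorem card_SL2 : Nat.card (SpecialLinearGroup (Fin 2) (ZMod p)) = p * (p ^ 2 - 1) := by
  have hp : 2 ≤ p := (Fact.out : p.Prime).two_le
  have h1 := Subgroup.card_eq_card_quotient_mul_card_subgroup
    (GeneralLinearGroup.det (n := Fin 2) (R := ZMod p)).ker
  have h2 : Nat.card (GL (Fin 2) (ZMod p) ⧸ (GeneralLinearGroup.det (n := Fin 2) (R := ZMod p)).ker) =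
      p - 1 := by
    rw [Nat.card_congr (QuotientGroup.quotientKerEquivOfSurjective _ (det_surj p)).toEquiv,
      Nat.card_eq_fintype_card, ZMod.card_units_eq_totient, Nat.totient_prime Fact.out]
  rw [h2, ← Nat.card_congr (slEquiv p), card_GL2] at h1
  have h3 : p ^ 2 - p = (p - 1) * p := by
    rw [pow_two, Nat.sub_mul, one_mul]
  rw [h3] at h1
  have h4 : (p - 1) * (p * (p ^ 2 - 1)) =
      (p - 1) * Nat.card (SpecialLinearGroup (Fin 2) (ZMod p)) := by
    rw [← h1]; ring
  exact (Nat.eq_of_mul_eq_mul_left (by omega) h4).symm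

theorem card_center (h2 : p ≠ 2) :
    Nat.card (Subgroup.center (SpecialLinearGroup (Fin 2) (ZMod p))) = 2 := by
  rw [Nat.card_congr (SpecialLinearGroup.center_equiv_rootsOfUnity' (R := ZMod p) (0 : Fin 2)).toEquiv,
    Fintype.card_fin]
  exact (IsPrimitiveRoot.neg_one p h2).card_rootsOfUnity

theorem CRD_holds : S_CRD := by
  intro p _ h2
  have h1 := Subgroup.card_eq_card_quotient_mul_card_subgroup
    (Subgroup.center (SpecialLinearGroup (Fin 2) (ZMod p)))
  rw [card_center p h2, card_SL2] at h1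
  rw [h1, Nat.mul_comm]
  rfl

end Pool.Agent.Helper87.HZ
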