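import Pool.Agent.Helper4.HZ.Goals

/-!
# HZ, packet TRF: invariant homomorphisms of a normal subgroup of prime to `p` index
-/

namespace Pool.Agent.Helper87.HZ

open Pool.Agent.Helper4.HZ

open scoped IsMulCommutative in
theorem TRF_holds : S_TRF := by
  intro G _ _ p _ O hG hO hp f hf hinv
  have hf' : ∀ a b : O, f (a * b) = f a + f b := hf
  let F : O →* Multiplicative (ZMod p) :=
    MonoidHom.mk' (fun a => Multiplicative.ofAdd (f a)) (fun a b => by
      rw [hf' a b]; rfl)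
  have hFf : ∀ a : O, F a = 1 ↔ f a = 0 := fun a => Iff.rfl
  let D : Subgroup G := F.ker.map O.subtype
  have hD : ∀ o : O, (o : G) ∈ D ↔ f o = 0 := by
    intro o
    rw [Subgroup.mem_map]
    constructor
    · rintro ⟨o', ho', he⟩
      have : o' = o := Subtype.ext he
      rw [← this]
      exact (hFf o').1 (MonoidHom.mem_ker.1 ho')
    · intro h
      exact ⟨o, MonoidHom.mem_ker.2 ((hFf o).2 h), rfl⟩
  have hDO : D ≤ O := by
    rintro _ ⟨o, -, rfl⟩
    exact o.2
  have hDn : D.Normal := by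
    constructor
    rintro _ ⟨o, ho, rfl⟩ g
    have h1 : f o = 0 := (hFf o).1 (MonoidHom.mem_ker.1 ho)
    have h2 := hinv g o
    rw [h1] at h2
    exact (hD ⟨g * o.1 * g⁻¹, hO.conj_mem o.1 o.2 g⟩).2 h2
  -- the image of `O` is central
  have hcen : O.map (QuotientGroup.mk' D) ≤ Subgroup.center (G ⧸ D) := by
    rintro _ ⟨o, ho, rfl⟩
    rw [Subgroup.mem_center_iff]
    intro q
    obtain ⟨g, rfl⟩ := QuotientGroup.mk'_surjective D q
    rw [← map_mul, ← map_mul]
    apply (QuotientGroup.mk'_eq_mk' D).2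
    refine ⟨(g * o)⁻¹ * (o * g), ?_, by group⟩
    -- `(g o)⁻¹ (o g) = o⁻¹ (g⁻¹ o g)`
    have h3 : ((g * o)⁻¹ * (o * g) : G) =
        (((⟨o, ho⟩ : O)⁻¹ * ⟨g⁻¹ * o * g⁻¹⁻¹, hO.conj_mem o ho g⁻¹⟩ : O) : G) := by
      simp only [Subgroup.coe_mul, Subgroup.coe_inv]
      group
    rw [h3, hD, hf', hinv g⁻¹ ⟨o, ho⟩]
    have h4 : f ((⟨o, ho⟩ : O)⁻¹ * ⟨o, ho⟩) = f (⟨o, ho⟩ : O)⁻¹ + f ⟨o, ho⟩ := hf' _ _
    rw [← h4, inv_mul_cancel]
    have h5 : F 1 = 1 := map_one F
    exact (hFf 1).1 h5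
  -- the transfer
  have hθ := hG (Subgroup.center (G ⧸ D))
    ((MonoidHom.transferCenterPow (G ⧸ D)).comp (QuotientGroup.mk' D))
  set m := (Subgroup.center (G ⧸ D)).index with hm
  have hmp : ¬ p ∣ m := by
    intro h
    apply hp
    have h1 : m ∣ (O.map (QuotientGroup.mk' D)).index := Subgroup.index_dvd_of_le hcen
    have h2 : (O.map (QuotientGroup.mk' D)).index = O.index := by
      apply Subgroup.index_map_eq _ (QuotientGroup.mk'_surjective D)
      rw [QuotientGroup.ker_mk']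
      exact hDO
    rw [h2] at h1
    exact h.trans h1
  funext o
  have h1 : (MonoidHom.transferCenterPow (G ⧸ D)) (QuotientGroup.mk' D (o : G)) = 1 := by
    have := DFunLike.congr_fun hθ (o : G)
    exact this
  have h2 : (QuotientGroup.mk' D (o : G)) ^ m = 1 := by
    have := congrArg Subtype.val h1
    rwa [MonoidHom.transferCenterPow_apply] at this
  rw [← map_pow] at h2
  have h3 : ((o : G) ^ m) ∈ D := (QuotientGroup.eq_one_iff _).1 h2
  have h4 : f (o ^ m) = 0 := (hD (o ^ m)).1 h3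
  have h5 : f (o ^ m) = (m : ZMod p) * f o := by
    have h6 : F (o ^ m) = F o ^ m := map_pow F o m
    have h7 : f (o ^ m) = m • f o := h6
    rw [h7, nsmul_eq_mul]
  rw [h5] at h4
  rcases mul_eq_zero.1 h4 with h | h
  · exact absurd ((ZMod.natCast_eq_zero_iff _ _).1 h) hmp
  · exact h

end Pool.Agent.Helper87.HZ
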